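import Pool.Agent.Helper80.MM.Cx

/-! Measures in degree `D` in fields whose logarithms are polynomials in `π`. -/

set_option autoImplicit false

namespace Pool.Agent.Helper80.MM

open Pool.Agent.Helper56.NL Polynomial

/-- measure of `π`, for polynomials -/
def PIp : Prop := ∀ d : ℕ, ∃ C : ℕ, ∀ H : ℕ, 2 ≤ H → ∀ A : ℤ[X], A ≠ 0 → A.natDegree ≤ d →
  (∀ k, |A.coeff k| ≤ (H : ℤ)) → 1 ≤ |aeval Real.pi A| * (H : ℝ) ^ C

/-- a multiple is an integral polynomial in `π` and `i` -/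
def T (z : ℂ) : Prop := ∃ (A B : ℤ[X]) (M : ℕ), 0 < M ∧
  (M : ℂ) * z = ((aeval Real.pi A : ℝ) : ℂ) + ((aeval Real.pi B : ℝ) : ℂ) * Complex.I

lemma T.mul {z z' : ℂ} (h : T z) (h' : T z') : T (z * z') := by
  obtain ⟨A, B, M, hM, e⟩ := h
  obtain ⟨A', B', M', hM', e'⟩ := h'
  refine ⟨A * A' - B * B', A * B' + A' * B, M * M', Nat.mul_pos hM hM', ?_⟩
  have : ((M * M' : ℕ) : ℂ) * (z * z') = (M * z) * (M' * z') := by push_cast; ring
  rw [this, e, e']
  simp only [map_sub, map_add, map_mul]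
  push_cast
  linear_combination (((aeval Real.pi B : ℝ) : ℂ) * ((aeval Real.pi B' : ℝ) : ℂ)) * Complex.I_sq

lemma T.add {z z' : ℂ} (h : T z) (h' : T z') : T (z + z') := by
  obtain ⟨A, B, M, hM, e⟩ := h
  obtain ⟨A', B', M', hM', e'⟩ := h'
  refine ⟨(M' : ℤ[X]) * A + (M : ℤ[X]) * A', (M' : ℤ[X]) * B + (M : ℤ[X]) * B', M * M',
    Nat.mul_pos hM hM', ?_⟩
  have : ((M * M' : ℕ) : ℂ) * (z + z') = M' * (M * z) + M * (M' * z') := by push_cast; ring
  rw [this, e, e']
  simp only [map_add, map_mul, map_natCast]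
  push_cast
  ring

lemma T.rat (q : ℚ) : T q := by
  refine ⟨C q.num, 0, q.den, q.den_pos, ?_⟩
  simp only [aeval_C, map_zero]
  have h : (q.den : ℂ) * (q : ℂ) = q.num := by
    have := Rat.den_mul_eq_num q
    exact_mod_cast congrArg (fun x : ℚ => (x : ℂ)) this
  rw [h]
  simp

lemma T.I : T Complex.I := by
  refine ⟨0, 1, 1, one_pos, ?_⟩
  simp

lemma T.pi : T (Real.pi : ℂ) := by
  refine ⟨X, 0, 1, one_pos, ?_⟩
  simp

lemma T.pow {z : ℂ} (h : T z) (n : ℕ) : T (z ^ n) := by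
  induction n with
  | zero => simpa using T.rat 1
  | succ n ih => rw [pow_succ]; exact ih.mul h

lemma T.sum {ι : Type*} (s : Finset ι) (f : ι → ℂ) (h : ∀ i ∈ s, T (f i)) : T (∑ i ∈ s, f i) := by
  classical
  induction s using Finset.induction_on with
  | empty => simpa using T.rat 0
  | insert a s ha ih =>
    rw [Finset.sum_insert ha]
    exact (h a (Finset.mem_insert_self _ _)).add (ih fun i hi => h i (Finset.mem_insert_of_mem hi))

lemma T.prod {ι : Type*} (s : Finset ι) (f : ι → ℂ) (h : ∀ i ∈ s, T (f i)) : T (∏ i ∈ s, f i) := by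
  classical
  induction s using Finset.induction_on with
  | empty => simpa using T.rat 1
  | insert a s ha ih =>
    rw [Finset.prod_insert ha]
    exact (h a (Finset.mem_insert_self _ _)).mul (ih fun i hi => h i (Finset.mem_insert_of_mem hi))

lemma T.gauss {z : ℂ} (h : Gauss z) : T z := by
  obtain ⟨a, b, rfl⟩ := h
  exact (T.rat a).add ((T.rat b).mul T.I)

lemma T.log {F : ExpField} (hp : F.p = Real.pi) (hall : AllLogsInPi F) {u : ℂ} (hu : IsLog F u) :
    T u := by
  obtain ⟨P, hP, rfl⟩ := hall u hu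
  rw [hp, Polynomial.eval_eq_sum, Polynomial.sum]
  exact T.sum _ _ fun n _ => (T.gauss (hP n)).mul (T.pi.pow n)

end Pool.Agent.Helper80.MM
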