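import Pool.Agent.Helper80.MM.A1

/-! Measures in degree `D` in fields whose logarithms are polynomials in `π`. -/

set_option autoImplicit false

namespace Pool.Agent.Helper80.MM

open Pool.Agent.Helper56.NL Polynomial

lemma fin_exp (n D : ℕ) : {m : Fin n →₀ ℕ | ∀ i, m i ≤ D}.Finite := by
  have h : {m : Fin n →₀ ℕ | ∀ i, m i ≤ D} =
      Finsupp.equivFunOnFinite ⁻¹' (Set.pi Set.univ fun _ => Set.Iic D) := by
    ext m
    simp only [Set.mem_preimage, Set.mem_pi, Set.mem_univ, forall_true_left, Set.mem_Iic,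
      Set.mem_ofPred_eq]
    rfl
  rw [h]
  exact (Set.Finite.pi fun _ => Set.finite_Iic D).preimage
    (Finsupp.equivFunOnFinite.injective.injOn)

/-- the values of integral polynomials of degree at most `D` at numbers in `T` -/
theorem bound (hpi : PIp) {n : ℕ} {u : Fin n → ℂ} (hu : ∀ i, T (u i)) (D : ℕ) :
    ∃ C : ℕ, ∀ H : ℕ, 2 ≤ H → ∀ P : MvPolynomial (Fin n) ℤ, P.totalDegree ≤ D →
      (∀ s, |P.coeff s| ≤ (H : ℤ)) → MvPolynomial.aeval u P ≠ 0 →
        1 ≤ ‖MvPolynomial.aeval u P‖ * (H : ℝ) ^ C := by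
  classical
  -- the exponents
  set S : Finset (Fin n →₀ ℕ) := (fin_exp n D).toFinset with hS
  have hm : ∀ m : Fin n →₀ ℕ, T (∏ i, u i ^ m i) := fun m =>
    T.prod _ _ fun i _ => (hu i).pow _
  choose A B M hM hAB using hm
  set M0 : ℕ := ∏ m ∈ S, M m with hM0
  have hM0pos : 0 < M0 := Finset.prod_pos fun m _ => hM m
  have hdvd : ∀ m ∈ S, ∃ q : ℕ, M0 = q * M m := fun m hmS => by
    obtain ⟨q, hq⟩ := Finset.dvd_prod_of_mem M hmS
    exact ⟨q, by rw [hM0, hq, mul_comm]⟩
  choose! q hq using hdvd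
  -- degrees and heights
  set d : ℕ := S.sup fun m => max (A m).natDegree (B m).natDegree with hd
  obtain ⟨K, hK⟩ : ∃ K : ℕ, ∀ m ∈ S, ∀ k, |((q m : ℤ) * (A m).coeff k)| ≤ K ∧
      |((q m : ℤ) * (B m).coeff k)| ≤ K := by
    refine ⟨S.sup fun m => q m * (((A m).support.sup fun k => ((A m).coeff k).natAbs) +
      ((B m).support.sup fun k => ((B m).coeff k).natAbs)), fun m hmS k => ?_⟩
    have h1 := Finset.le_sup (f := fun m => q m * (((A m).support.sup fun k =>
      ((A m).coeff k).natAbs) + ((B m).support.sup fun k => ((B m).coeff k).natAbs))) hmS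
    have hA : ((A m).coeff k).natAbs ≤ (A m).support.sup fun k => ((A m).coeff k).natAbs := by
      by_cases hk : k ∈ (A m).support
      · exact Finset.le_sup (f := fun k => ((A m).coeff k).natAbs) hk
      · rw [Polynomial.notMem_support_iff.1 hk]
        simp
    have hB : ((B m).coeff k).natAbs ≤ (B m).support.sup fun k => ((B m).coeff k).natAbs := by
      by_cases hk : k ∈ (B m).support
      · exact Finset.le_sup (f := fun k => ((B m).coeff k).natAbs) hk
      · rw [Polynomial.notMem_support_iff.1 hk]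
        simp
    constructor
    · rw [abs_mul, Nat.abs_cast, Int.abs_eq_natAbs]
      have h2 : q m * ((A m).coeff k).natAbs ≤ q m * (((A m).support.sup fun k =>
          ((A m).coeff k).natAbs) + ((B m).support.sup fun k => ((B m).coeff k).natAbs)) :=
        Nat.mul_le_mul_left _ (by omega)
      exact_mod_cast h2.trans h1
    · rw [abs_mul, Nat.abs_cast, Int.abs_eq_natAbs]
      have h2 : q m * ((B m).coeff k).natAbs ≤ q m * (((A m).support.sup fun k =>
          ((A m).coeff k).natAbs) + ((B m).support.sup fun k => ((B m).coeff k).natAbs)) :=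
        Nat.mul_le_mul_left _ (by omega)
      exact_mod_cast h2.trans h1
  obtain ⟨C, hC⟩ := hpi d
  -- constants: height of the combination `≤ (#S K + 1) H ≤ H ^ (c + 1)`
  set W : ℕ := S.card * K + 1 with hW
  obtain ⟨c, hc⟩ : ∃ c : ℕ, W ≤ 2 ^ c := ⟨W, Nat.lt_two_pow_self.le⟩
  obtain ⟨c', hc'⟩ : ∃ c' : ℕ, M0 ≤ 2 ^ c' := ⟨M0, Nat.lt_two_pow_self.le⟩
  refine ⟨c' + (c + 1) * C, fun H hH P hPD hPH hP0 => ?_⟩
  have hH1 : (1 : ℝ) ≤ H := by exact_mod_cast (by omega : 1 ≤ H)
  have hH2 : (2 : ℝ) ≤ H := by exact_mod_cast hH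
  set AA : ℤ[X] := ∑ m ∈ S, Polynomial.C (P.coeff m * q m) * A m with hAA
  set BB : ℤ[X] := ∑ m ∈ S, Polynomial.C (P.coeff m * q m) * B m with hBB
  have hval : (M0 : ℂ) * MvPolynomial.aeval u P =
      ((aeval Real.pi AA : ℝ) : ℂ) + ((aeval Real.pi BB : ℝ) : ℂ) * Complex.I := by
    have h1 : MvPolynomial.aeval u P = ∑ m ∈ S, ((P.coeff m : ℤ) : ℂ) * ∏ i, u i ^ m i := by
      rw [MvPolynomial.aeval_def, MvPolynomial.eval₂_eq']
      have hsub : P.support ⊆ S := by
        intro m hmP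
        rw [hS, Set.Finite.mem_toFinset]
        intro i
        have h2 := MvPolynomial.le_totalDegree hmP
        have h3 : m i ≤ m.sum fun _ e => e := by
          by_cases hi : i ∈ m.support
          · exact Finset.single_le_sum (f := fun i => m i) (fun _ _ => Nat.zero_le _) hi
          · rw [Finsupp.notMem_support_iff.1 hi]
            exact Nat.zero_le _
        omega
      refine (Finset.sum_subset hsub fun m _ hmP => ?_).trans ?_
      · rw [MvPolynomial.notMem_support_iff.1 hmP]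
        simp
      · exact Finset.sum_congr rfl fun m _ => by simp
    rw [h1, Finset.mul_sum, hAA, hBB, map_sum, map_sum]
    push_cast
    rw [Finset.sum_mul, ← Finset.sum_add_distrib]
    refine Finset.sum_congr rfl fun m hmS => ?_
    have h2 := hAB m
    have h3 : (M0 : ℂ) = q m * M m := by exact_mod_cast hq m hmS
    rw [h3]
    simp only [map_mul, aeval_C]
    push_cast
    have h4 : ((q m : ℂ) * M m) * (((P.coeff m : ℤ) : ℂ) * ∏ i, u i ^ m i) =
        ((P.coeff m : ℤ) : ℂ) * q m * (M m * ∏ i, u i ^ m i) := by ring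
    rw [h4, h2]
    simp
    ring
  -- coefficients
  have hcoefA : ∀ (G : (Fin n →₀ ℕ) → ℤ[X]), (∀ m ∈ S, ∀ k, |((q m : ℤ) * (G m).coeff k)| ≤ K) →
      ∀ k, |(∑ m ∈ S, Polynomial.C (P.coeff m * q m) * G m).coeff k| ≤ ((W * H : ℕ) : ℤ) := by
    intro G hG k
    rw [Polynomial.finsetSum_coeff]
    refine (Finset.abs_sum_le_sum_abs _ _).trans ?_
    have h1 : ∀ m ∈ S, |(Polynomial.C (P.coeff m * q m) * G m).coeff k| ≤ (H : ℤ) * K := by
      intro m hmS
      rw [Polynomial.coeff_C_mul, mul_assoc, abs_mul]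
      exact mul_le_mul (hPH m) (hG m hmS k) (abs_nonneg _) (by positivity)
    refine (Finset.sum_le_sum h1).trans ?_
    rw [Finset.sum_const, nsmul_eq_mul, hW]
    push_cast
    nlinarith [show (0 : ℤ) ≤ H from by positivity]
  have hdegA : ∀ (G : (Fin n →₀ ℕ) → ℤ[X]), (∀ m ∈ S, (G m).natDegree ≤ d) →
      (∑ m ∈ S, Polynomial.C (P.coeff m * q m) * G m).natDegree ≤ d := by
    intro G hG
    refine Polynomial.natDegree_sum_le_of_forall_le _ _ fun m hmS => ?_
    exact (Polynomial.natDegree_C_mul_le _ _).trans (hG m hmS)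
  have hWH : 2 ≤ W * H := by
    have : 1 ≤ W := by omega
    nlinarith
  have hWle : ((W * H : ℕ) : ℝ) ≤ (H : ℝ) ^ (c + 1) := by
    have h1 : (W : ℝ) ≤ (H : ℝ) ^ c := by
      calc (W : ℝ) ≤ (2 : ℝ) ^ c := by exact_mod_cast hc
        _ ≤ (H : ℝ) ^ c := pow_le_pow_left₀ (by norm_num) hH2 _
    push_cast
    rw [pow_succ]
    exact mul_le_mul_of_nonneg_right h1 (by linarith)
  have hM0le : (M0 : ℝ) ≤ (H : ℝ) ^ c' := by
    calc (M0 : ℝ) ≤ (2 : ℝ) ^ c' := by exact_mod_cast hc'
      _ ≤ (H : ℝ) ^ c' := pow_le_pow_left₀ (by norm_num) hH2 _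
  have key : ∀ G : ℤ[X], G ≠ 0 → G.natDegree ≤ d → (∀ k, |G.coeff k| ≤ ((W * H : ℕ) : ℤ)) →
      |aeval Real.pi G| ≤ ‖(M0 : ℂ) * MvPolynomial.aeval u P‖ →
        1 ≤ ‖MvPolynomial.aeval u P‖ * (H : ℝ) ^ (c' + (c + 1) * C) := by
    intro G hG hGd hGc hle
    have h1 := hC (W * H) hWH G hG hGd hGc
    rw [norm_mul, Complex.norm_natCast] at hle
    calc (1 : ℝ) ≤ |aeval Real.pi G| * ((W * H : ℕ) : ℝ) ^ C := h1
      _ ≤ (M0 * ‖MvPolynomial.aeval u P‖) * ((H : ℝ) ^ (c + 1)) ^ C := by gcongr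
      _ ≤ ((H : ℝ) ^ c' * ‖MvPolynomial.aeval u P‖) * ((H : ℝ) ^ (c + 1)) ^ C := by gcongr
      _ = ‖MvPolynomial.aeval u P‖ * (H : ℝ) ^ (c' + (c + 1) * C) := by
        rw [← pow_mul, pow_add (H : ℝ) c' ((c + 1) * C)]; ring
  have hne : AA ≠ 0 ∨ BB ≠ 0 := by
    by_contra hcon
    push Not at hcon
    rw [hcon.1, hcon.2] at hval
    simp only [map_zero, Complex.ofReal_zero, zero_mul, add_zero] at hval
    rcases mul_eq_zero.1 hval with h | h
    · exact hM0pos.ne' (by exact_mod_cast h)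
    · exact hP0 h
  rcases hne with h | h
  · refine key AA h (hdegA A fun m hmS => ?_) (hcoefA A fun m hmS k => (hK m hmS k).1) ?_
    · exact (le_max_left _ _).trans
        (Finset.le_sup (f := fun m => max (A m).natDegree (B m).natDegree) hmS)
    · rw [hval]
      have := Complex.abs_re_le_norm
        (((aeval Real.pi AA : ℝ) : ℂ) + ((aeval Real.pi BB : ℝ) : ℂ) * Complex.I)
      simpa using this
  · refine key BB h (hdegA B fun m hmS => ?_) (hcoefA B fun m hmS k => (hK m hmS k).2) ?_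
    · exact (le_max_right _ _).trans
        (Finset.le_sup (f := fun m => max (A m).natDegree (B m).natDegree) hmS)
    · rw [hval]
      have := Complex.abs_im_le_norm
        (((aeval Real.pi AA : ℝ) : ℂ) + ((aeval Real.pi BB : ℝ) : ℂ) * Complex.I)
      simpa using this

end Pool.Agent.Helper80.MM
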