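import Pool.Agent.Helper80.MM.A2
import Pool.Agent.Helper56.NL.Main2
import Pool.Graph.R_seed8.TH456.TM.Inst

/-! Measures in degree `D` in fields whose logarithms are polynomials in `π`. -/

set_option autoImplicit false

namespace Pool.Agent.Helper80.MM

open Pool.Agent.Helper56.NL Polynomial

theorem pip : PIp := by
  intro d
  obtain ⟨κ, c, hκ, hc, h⟩ := Pool.Agent.TH456.TM.measT_pi d
  obtain ⟨N, hN⟩ := pow_unbounded_of_one_lt (1 / c) (one_lt_two (α := ℝ))
  refine ⟨⌈κ⌉₊ + N, fun H hH A hA hd hco => ?_⟩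
  have hH' : (2 : ℝ) ≤ (H : ℝ) := by exact_mod_cast hH
  have h1 := h A hA hd H (by linarith) (fun j => by exact_mod_cast hco j)
  have h2 : ‖aeval (Real.pi : ℂ) A‖ = |aeval Real.pi A| := by
    have h3 : aeval (Real.pi : ℂ) A = ((aeval Real.pi A : ℝ) : ℂ) := by
      have := Polynomial.aeval_algebraMap_apply ℂ Real.pi A
      simpa using this
    rw [h3, Complex.norm_real, Real.norm_eq_abs]
  rw [h2] at h1
  have h4 : (H : ℝ) ^ κ ≤ (H : ℝ) ^ ⌈κ⌉₊ := by
    rw [← Real.rpow_natCast]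
    exact Real.rpow_le_rpow_of_exponent_le (by linarith) (Nat.le_ceil κ)
  have h5 : 1 / c ≤ (H : ℝ) ^ N := hN.le.trans (pow_le_pow_left₀ (by norm_num) hH' N)
  have h6 : 1 ≤ c * (H : ℝ) ^ N := by
    rw [div_le_iff₀ hc] at h5
    linarith
  calc (1 : ℝ) ≤ c * (H : ℝ) ^ N := h6
    _ ≤ ((H : ℝ) ^ κ * |aeval Real.pi A|) * (H : ℝ) ^ N := by gcongr
    _ ≤ ((H : ℝ) ^ ⌈κ⌉₊ * |aeval Real.pi A|) * (H : ℝ) ^ N := by gcongr
    _ = |aeval Real.pi A| * (H : ℝ) ^ (⌈κ⌉₊ + N) := by rw [pow_add]; ring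

/-- in the fields of `models2` the estimate holds in degree `D` -/
theorem measures {F : ExpField} {D : ℕ} (hp : F.p = Real.pi) (hall : AllLogsInPi F)
    (hdeg : IndependentInDegree F D) : MeasureInDegree F D := by
  intro n u hu hi
  obtain ⟨C, hC⟩ := bound pip (fun i => T.log hp hall (hu i)) D
  refine ⟨2 * C + 1, by positivity, fun H hH P hP hPD hPH => ?_⟩
  have hne : MvPolynomial.aeval u P ≠ 0 := by
    have h1 := hdeg n u hu hi (MvPolynomial.map (Int.castRingHom ℂ) P) (fun m => by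
      rw [MvPolynomial.coeff_map, eq_intCast]
      exact isAlgebraic_algebraMap (R := ℚ) (A := ℂ) ((P.coeff m : ℤ) : ℚ) |> fun h => by
        simpa using h) (fun h0 => hP (by
          have := MvPolynomial.map_injective (σ := Fin n) (Int.castRingHom ℂ)
            (RingHom.injective_int _)
          exact this (by rw [h0, map_zero])))
      ((Finset.sup_mono (MvPolynomial.support_map_subset _ _)).trans hPD)
    rw [MvPolynomial.eval_map] at h1
    rw [MvPolynomial.aeval_def]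
    exact h1
  have hfl : 2 ≤ ⌊H⌋₊ := Nat.le_floor (by exact_mod_cast hH)
  have h1 := hC ⌊H⌋₊ hfl P hPD (fun s => by
    have h2 := hPH s
    have h3 : ((|P.coeff s| : ℤ) : ℝ) ≤ H := by push_cast; exact h2
    have h4 : |P.coeff s| ≤ ⌊H⌋ := Int.le_floor.2 h3
    rwa [Int.natCast_floor_eq_floor (by linarith)]) hne
  have hH0 : (0 : ℝ) < H := by linarith
  have h5 : ((⌊H⌋₊ : ℕ) : ℝ) ^ C ≤ H ^ C :=
    pow_le_pow_left₀ (by positivity) (Nat.floor_le hH0.le) C
  have h6 : 1 ≤ ‖MvPolynomial.aeval u P‖ * H ^ C :=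
    h1.trans (mul_le_mul_of_nonneg_left h5 (norm_nonneg _))
  have h7 : H ^ (-(C : ℝ)) ≤ ‖MvPolynomial.aeval u P‖ := by
    rw [Real.rpow_neg hH0.le, Real.rpow_natCast, inv_le_iff_one_le_mul₀ (by positivity)]
    exact h6
  refine le_trans ?_ h7
  exact Real.rpow_le_rpow_of_exponent_le (by linarith) (by
    have : (0 : ℝ) ≤ C := by positivity
    linarith)

theorem modelsA {D : ℕ} (hD : 3 ≤ D) {ε : ℝ} (hε : 0 < ε) {r m : ℕ} (α : Fin r → ℂ)
    (hα : ∀ j, IsAlgebraic ℚ (α j)) (w : Fin m → ℂ)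
    (hw : ∀ j, IsAlgebraic ℚ (Complex.exp (w j))) :
    ∃ F : ExpField, F.p = Real.pi ∧ MeasureInDegree F D ∧ LindemannWeierstrass F ∧
      StrongFourExponentials F ∧ StructuralRank F (1 - 1 / D) ∧ SchanuelModuloLogs F ∧
        AllLogsInPi F ∧ (∀ j, ‖F.E (α j) - Complex.exp (α j)‖ < ε) ∧
          ∀ j, ∃ u ∈ F.K, F.E u = Complex.exp (w j) ∧ ‖u - w j‖ < ε := by
  obtain ⟨F, hp, hLW, hdeg, hfour, hrank, hsch, hall, he, hw'⟩ := models2 hD hε α hα w hw
  exact ⟨F, hp, measures hp hall hdeg, hLW, hfour, hrank, hsch, hall, he, hw'⟩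

end Pool.Agent.Helper80.MM
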