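import Pool.Agent.Helper80.MM.A3

/-! The estimate for all values that are not zero. -/

set_option autoImplicit false

namespace Pool.Agent.Helper80.MM

open Pool.Agent.Helper56.NL Polynomial

/-- the estimate for all values that are not zero, in all degrees -/
def Nonzero (F : ExpField) : Prop :=
  ∀ (n : ℕ) (u : Fin n → ℂ), (∀ i, IsLog F (u i)) → ∀ d : ℕ,
    ∃ C : ℝ, 0 < C ∧ ∀ H : ℝ, 2 ≤ H → ∀ P : MvPolynomial (Fin n) ℤ,
      P.totalDegree ≤ d → (∀ s, |((P.coeff s : ℤ) : ℝ)| ≤ H) → MvPolynomial.aeval u P ≠ 0 →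
        H ^ (-C) ≤ ‖MvPolynomial.aeval u P‖

theorem nonzero {F : ExpField} (hp : F.p = Real.pi) (hall : AllLogsInPi F) : Nonzero F := by
  intro n u hu d
  obtain ⟨C, hC⟩ := bound pip (fun i => T.log hp hall (hu i)) d
  refine ⟨2 * C + 1, by positivity, fun H hH P hPD hPH hne => ?_⟩
  have hfl : 2 ≤ ⌊H⌋₊ := Nat.le_floor (by exact_mod_cast hH)
  have h1 := hC ⌊H⌋₊ hfl P hPD (fun s => by
    have h2 := hPH s
    have h3 : ((|P.coeff s| : ℤ) : ℝ) ≤ H := by push_cast; exact h2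
    have h4 : |P.coeff s| ≤ ⌊H⌋ := Int.le_floor.2 h3
    rwa [Int.natCast_floor_eq_floor (by linarith)]) hne
  have hH0 : (0 : ℝ) < H := by linarith
  have h5 : ((⌊H⌋₊ : ℕ) : ℝ) ^ C ≤ H ^ C :=
    pow_le_pow_left₀ (by positivity) (Nat.floor_le hH0.le) C
  have h6 : 1 ≤ ‖MvPolynomial.aeval u P‖ * H ^ C :=
    h1.trans (mul_le_mul_of_nonneg_left h5 (norm_nonneg _))
  have h7 : H ^ (-(C : ℝ)) ≤ ‖MvPolynomial.aeval u P‖ := by
    rw [Real.rpow_neg hH0.le, Real.rpow_natCast, inv_le_iff_one_le_mul₀ (by positivity)]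
    exact h6
  refine le_trans ?_ h7
  exact Real.rpow_le_rpow_of_exponent_le (by linarith) (by
    have : (0 : ℝ) ≤ C := by positivity
    linarith)

end Pool.Agent.Helper80.MM
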