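import Pool.Agent.Helper80.MM.Main
import Pool.Agent.Helper56.NL.Two

/-! The complex numbers. -/

set_option autoImplicit false

namespace Pool.Agent.Helper80.MM

open Pool.Agent.Helper56.NL

/-- the conjecture -/
def Conj : Prop :=
  ∀ (n : ℕ) (l : Fin n → ℂ), (∀ i, IsAlgebraic ℚ (Complex.exp (l i))) → LinearIndependent ℚ l →
    ∀ d : ℕ, ∃ C : ℝ, 0 < C ∧ ∀ H : ℝ, 2 ≤ H → ∀ P : MvPolynomial (Fin n) ℤ, P ≠ 0 →
      P.totalDegree ≤ d → (∀ s, |((P.coeff s : ℤ) : ℝ)| ≤ H) →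
        H ^ (-C) ≤ ‖MvPolynomial.aeval l P‖

/-- Schanuel's conjecture -/
def SC : Prop := ∀ (n : ℕ) (z : Fin n → ℂ), LinearIndependent ℚ z →
  ∃ f : Fin n → ℂ, (∀ i, f i ∈ Set.range z ∪ Set.range fun j => Complex.exp (z j)) ∧
    AlgebraicIndependent ℚ f

theorem complex : ∃ F : ExpField, F.K = ⊤ ∧ F.E = Complex.exp ∧ F.p = Real.pi ∧
    (Schanuel F ↔ SC) ∧ ((∀ D, MeasureInDegree F D) ↔ Conj) := by
  obtain ⟨F, hK, hE, hp⟩ := complex_field
  have hmem : ∀ x : ℂ, x ∈ F.K := fun x => by rw [hK]; trivial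
  refine ⟨F, hK, hE, hp, ?_, ?_⟩
  · constructor
    · intro h n z hz
      have := h n z (fun i => hmem _) hz
      rw [hE] at this
      exact this
    · intro h n z _ hz
      rw [hE]
      exact h n z hz
  · constructor
    · intro h n l hl hi d
      exact h d n l (fun i => ⟨hmem _, by rw [hE]; exact hl i⟩) hi
    · intro h D n u hu hi
      exact h n u (fun i => by have := (hu i).2; rwa [hE] at this) hi D

end Pool.Agent.Helper80.MM
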