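import Pool.Agent.Helper80.MM.Main
import Pool.Agent.Helper80.MM.Cx
import Pool.Agent.Helper13.MM.PB1

/-! Project MM: the last step. -/

set_option autoImplicit false

namespace Pool.Agent.Helper80.MM

open Pool.Agent.Helper35.EM Pool.Agent.Helper56.SA Pool.Agent.Helper56.EM Pool.Agent.Helper56.NL
  Pool.Agent.Helper56.HS Module Submodule Set ComplexConjugate MeasureTheory

/-- The final theorem with the negation of the estimate in degree `D + 1`. -/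
theorem final2 (hPIM : S_PIM) (hMETR : S_METR) (hSTEP : S_STEP) (hFIRST : S_FIRST) (hSEQ : S_SEQ)
    (hLOGB : S_LOGB) (hPB1 : S_PB1) (hPB2 : S_PB2) (hSCHL : S_SCHL) (hFLD : S_FLD)
    (hMEAS : S_MEAS) (hFAIL : S_FAIL) (D : ℕ) :
    ∃ F : Pool.Agent.Helper56.NL.ExpField, F.p = Real.pi ∧ Schanuel F ∧ MeasureInDegree F D ∧
      ¬ MeasureInDegree F (D + 1) ∧
      ∃ u v : ℝ, (u : ℂ) ∈ F.K ∧ (v : ℂ) ∈ F.K ∧ F.E u = 2 ∧ F.E v = 3 ∧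
        ∀ C : ℝ, 0 < C → ∃ H : ℝ, 2 ≤ H ∧ ∃ P : MvPolynomial (Fin 2) ℤ, P ≠ 0 ∧
          P.totalDegree ≤ D + 1 ∧ (∀ s, |((P.coeff s : ℤ) : ℝ)| ≤ H) ∧
          0 < ‖MvPolynomial.aeval ![(u : ℂ), (v : ℂ)] P‖ ∧
          ‖MvPolynomial.aeval ![(u : ℂ), (v : ℂ)] P‖ < H ^ (-C) := by
  obtain ⟨s, t, hs⟩ := hSEQ hMETR hPIM hSTEP hFIRST D
  obtain ⟨w, e, hwe⟩ := hLOGB
  obtain ⟨F, hp, hSch, hE, hlog⟩ := hFLD hPB1 hPB2 hSCHL D s t hs w e hwe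
  have hu : (s 1 : ℂ) ∈ F.K := by
    have h := (hE 1).1
    rwa [hwe.e1, one_mul] at h
  have hv : (s 2 : ℂ) ∈ F.K := by
    have h := (hE 2).1
    rwa [hwe.e2, one_mul] at h
  have h2 : F.E (s 1 : ℂ) = 2 := by
    have h := (hE 1).2
    rw [hwe.e1, one_mul, hwe.w1] at h
    rw [h, ← Complex.ofReal_exp, Real.exp_log (by norm_num)]
    norm_num
  have h3 : F.E (s 2 : ℂ) = 3 := by
    have h := (hE 2).2
    rw [hwe.e2, one_mul, hwe.w2] at h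
    rw [h, ← Complex.ofReal_exp, Real.exp_log (by norm_num)]
    norm_num
  have hfail : ∀ C : ℝ, 0 < C → ∃ H : ℝ, 2 ≤ H ∧ ∃ P : MvPolynomial (Fin 2) ℤ, P ≠ 0 ∧
      P.totalDegree ≤ D + 1 ∧ (∀ s, |((P.coeff s : ℤ) : ℝ)| ≤ H) ∧
      0 < ‖MvPolynomial.aeval ![((s 1 : ℝ) : ℂ), ((s 2 : ℝ) : ℂ)] P‖ ∧
      ‖MvPolynomial.aeval ![((s 1 : ℝ) : ℂ), ((s 2 : ℝ) : ℂ)] P‖ < H ^ (-C) := by
    obtain ⟨L, hL, h4⟩ := hs.two
    intro C hC
    have h := hFAIL D L (s 1) hL hs.one C hC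
    rw [h4]
    exact h
  have hli : LinearIndependent ℚ ![((s 1 : ℝ) : ℂ), ((s 2 : ℝ) : ℂ)] := by
    have h := (Pool.Agent.Helper13.MM.li_new hs hwe).comp (![1, 2] : Fin 2 → ℕ) (by decide)
    have h' : ((fun k => e k * (s k : ℂ)) ∘ (![1, 2] : Fin 2 → ℕ)) =
        ![((s 1 : ℝ) : ℂ), ((s 2 : ℝ) : ℂ)] := by
      funext i
      fin_cases i
      · simp [hwe.e1]
      · simp [hwe.e2]
    rwa [h'] at h
  refine ⟨F, hp, hSch, ?_, ?_, s 1, s 2, hu, hv, h2, h3, hfail⟩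
  · intro n u hu hi
    refine hMEAS D s e (fun k => ?_) hs.meas n u (fun i => hlog _ (hu i)) hi
    rcases hwe.typ k with h | h
    · exact Or.inl h.1
    · exact Or.inr h.1
  · intro hM
    obtain ⟨C, hC, hM⟩ := hM 2 ![((s 1 : ℝ) : ℂ), ((s 2 : ℝ) : ℂ)] (fun i => by
      fin_cases i
      · refine ⟨hu, ?_⟩
        show IsAlgebraic ℚ (F.E (s 1 : ℂ))
        rw [h2]
        exact_mod_cast isAlgebraic_algebraMap (R := ℚ) (A := ℂ) 2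
      · refine ⟨hv, ?_⟩
        show IsAlgebraic ℚ (F.E (s 2 : ℂ))
        rw [h3]
        exact_mod_cast isAlgebraic_algebraMap (R := ℚ) (A := ℂ) 3) hli
    obtain ⟨H, hH, P, hP, hPd, hPH, _, hlt⟩ := hfail C hC
    exact absurd (hM H hH P hP hPd hPH) (not_le.2 hlt)

end Pool.Agent.Helper80.MM
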