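import Pool.Agent.Helper80.MM.Stm

/-! Assembly of project MM. -/

set_option autoImplicit false

namespace Pool.Agent.Helper80.MM

open Pool.Agent.Helper35.EM Pool.Agent.Helper56.SA Pool.Agent.Helper56.EM Pool.Agent.Helper56.NL
  Pool.Agent.Helper56.HS Module Submodule Set ComplexConjugate MeasureTheory

theorem final (hPIM : S_PIM) (hMETR : S_METR) (hSTEP : S_STEP) (hFIRST : S_FIRST) (hSEQ : S_SEQ)
    (hLOGB : S_LOGB) (hPB1 : S_PB1) (hPB2 : S_PB2) (hSCHL : S_SCHL) (hFLD : S_FLD)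
    (hMEAS : S_MEAS) (hFAIL : S_FAIL) : S_FINAL := by
  intro D
  obtain ⟨s, t, hs⟩ := hSEQ hMETR hPIM hSTEP hFIRST D
  obtain ⟨w, e, hwe⟩ := hLOGB
  obtain ⟨F, hp, hSch, hE, hlog⟩ := hFLD hPB1 hPB2 hSCHL D s t hs w e hwe
  refine ⟨F, hp, hSch, ?_, s 1, s 2, ?_, ?_, ?_, ?_, ?_⟩
  · intro n u hu hi
    refine hMEAS D s e (fun k => ?_) hs.meas n u (fun i => hlog _ (hu i)) hi
    rcases hwe.typ k with h | h
    · exact Or.inl h.1
    · exact Or.inr h.1
  · have h := (hE 1).1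
    rwa [hwe.e1, one_mul] at h
  · have h := (hE 2).1
    rwa [hwe.e2, one_mul] at h
  · have h := (hE 1).2
    rw [hwe.e1, one_mul, hwe.w1] at h
    rw [h, ← Complex.ofReal_exp, Real.exp_log (by norm_num)]
    norm_num
  · have h := (hE 2).2
    rw [hwe.e2, one_mul, hwe.w2] at h
    rw [h, ← Complex.ofReal_exp, Real.exp_log (by norm_num)]
    norm_num
  · obtain ⟨L, hL, h2⟩ := hs.two
    intro C hC
    have h := hFAIL D L (s 1) hL hs.one C hC
    rw [h2]
    exact h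

end Pool.Agent.Helper80.MM
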