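import Pool.Agent.Helper56.HS.Ext2
import Pool.Agent.Helper56.HS.Def

/-!
Project MM (helper80, `MP_3cf473_nt`): packages.

Goal: for every `D ≥ 1` there is an exponential field with the true `π`, in which Schanuel's conjecture
holds, and the estimate `|P(u)| ≥ H ^ (-C)` for all polynomials of degree at most `D` at rationally
independent logarithms of algebraic numbers, but not the estimate in degree `D + 1` for two logarithms
of the numbers 2 and 3. (New values: `π, u, L u ^ (D + 1)` with a Liouville number `L`, all others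
generic.)
-/

set_option autoImplicit false

namespace Pool.Agent.Helper80.MM

open Pool.Agent.Helper35.EM Pool.Agent.Helper56.SA Pool.Agent.Helper56.EM Pool.Agent.Helper56.NL
  Pool.Agent.Helper56.HS Module Submodule Set ComplexConjugate MeasureTheory

/-- The estimate in degree at most `D` for all tuples of rationally independent logarithms of algebraic
numbers. -/
def MeasureInDegree (F : Pool.Agent.Helper56.NL.ExpField) (D : ℕ) : Prop :=
  ∀ (n : ℕ) (u : Fin n → ℂ), (∀ i, Pool.Agent.Helper56.NL.IsLog F (u i)) → LinearIndependent ℚ u →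
    ∃ C : ℝ, 0 < C ∧ ∀ H : ℝ, 2 ≤ H → ∀ P : MvPolynomial (Fin n) ℤ, P ≠ 0 →
      P.totalDegree ≤ D → (∀ s, |((P.coeff s : ℤ) : ℝ)| ≤ H) →
        H ^ (-C) ≤ ‖MvPolynomial.aeval u P‖

/-- Schanuel's conjecture in `F`. -/
def Schanuel (F : Pool.Agent.Helper56.NL.ExpField) : Prop :=
  ∀ (n : ℕ) (z : Fin n → ℂ), (∀ i, z i ∈ F.K) → LinearIndependent ℚ z →
    ∃ f : Fin n → ℂ, (∀ i, f i ∈ Set.range z ∪ Set.range fun j => F.E (z j)) ∧
      AlgebraicIndependent ℚ f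

/-- estimate of degree at most `D` for the real tuple `x` -/
def MR (D : ℕ) {N : ℕ} (x : Fin N → ℝ) : Prop :=
  ∃ C : ℕ, ∀ H : ℕ, 2 ≤ H → ∀ P : MvPolynomial (Fin N) ℤ, P ≠ 0 → P.totalDegree ≤ D →
    (∀ m, |P.coeff m| ≤ (H : ℤ)) → 1 ≤ |MvPolynomial.aeval x P| * (H : ℝ) ^ C

/-- Package PIM (40 lines): transcendence measure of `π`, from the library
(`Pool.Graph.R_pool_sql_team_seeded_b0a926ef.R523.LogC`, `measT_of_exp`, for `θ = π i`). -/
def S_PIM : Prop := ∀ d : ℕ, MR d ![Real.pi]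

/-- Package METR (120 lines, Mathlib only): metric lemma. For a polynomial `f` of degree `≤ m` with a
coefficient of absolute value `≥ A` the set `{|x| ≤ R, |f x| ≤ δ}` has measure `≤ K (δ / A) ^ (1 / m)`
(Lagrange interpolation at `m + 1` separated points of the set), then Borel-Cantelli, `R = 1, 2, ...`. -/
def S_METR : Prop := ∀ (m N C : ℕ) (Q : ℕ → Set (Polynomial ℝ)),
  (∀ H, 2 ≤ H → (Q H).Finite ∧ (Q H).ncard ≤ (2 * H + 1) ^ N ∧
    ∀ f ∈ Q H, f.natDegree ≤ m ∧ ∃ k, 1 ≤ |f.coeff k| * (H : ℝ) ^ C) →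
  ∃ C' : ℕ, ∀ᵐ x : ℝ, ∃ H0 : ℕ, ∀ H, H0 ≤ H → 2 ≤ H → ∀ f ∈ Q H, 1 ≤ |f.eval x| * (H : ℝ) ^ C'

/-- Package STEP (100 lines, from METR): a generic further number. (`P` of height `≤ H`, as a polynomial in
the last variable, has a coefficient `p_k ≠ 0`, and `|p_k(x)| ≥ H ^ (-C)`; small `H`: height `≤ H` implies
height `≤ H0`.) -/
def S_STEP : Prop := S_METR → ∀ (D N : ℕ) (x : Fin N → ℝ), MR D x →
  ∀ᵐ y : ℝ, MR D (Fin.snoc (α := fun _ => ℝ) x y)

/-- Package FIRST (120 lines, from METR, PIM): in `P(π, u, L u ^ (D + 1)) = Σ (Σ_a p_aij π ^ a) L ^ j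
u ^ (i + (D + 1) j)`, `i ≤ D`, the exponents of `u` are different for different `(i, j)`. -/
def S_FIRST : Prop := S_METR → S_PIM → ∀ (D : ℕ) (L : ℝ), L ≠ 0 →
  ∀ᵐ u : ℝ, MR D ![Real.pi, u, L * u ^ (D + 1)]

/-- the numbers -/
structure Seq (D : ℕ) (s t : ℕ → ℝ) : Prop where
  zero : s 0 = Real.pi
  one : s 1 ≠ 0
  two : ∃ L : ℝ, Liouville L ∧ s 2 = L * s 1 ^ (D + 1)
  free : ∀ n, (s n : ℂ) ∉ M.closure ((fun k => (s k : ℂ)) '' Iio n)
  meas : ∀ N : ℕ, MR D (fun i : Fin N => s i)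
  freeS : FreeS (range fun k => (s k : ℂ)) (fun k => (t k : ℂ))

/-- Package SEQ (120 lines, from STEP, FIRST): `L` a Liouville number (residual set) outside the closure of
`π`, then `u` outside the closure of `π, L` and a null set, `s 3, s 4, ...` one after the other outside
null sets and countable closures, then `t n > 0` outside the countable closure of `range s` and
`t 0, ..., t (n - 1)`. -/
def S_SEQ : Prop := S_METR → S_PIM → S_STEP → S_FIRST → ∀ D : ℕ, ∃ s t : ℕ → ℝ, Seq D s t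

/-- a basis of the space of all complex logarithms of algebraic numbers -/
structure LB (w e : ℕ → ℂ) : Prop where
  typ : ∀ k, (e k = 1 ∧ conj (w k) = w k) ∨ (e k = Complex.I ∧ conj (w k) = -w k)
  ind : LinearIndependent ℚ w
  spn : ∀ z, z ∈ span ℚ (range w) ↔ Complex.exp z ∈ M.closure ∅
  e0 : e 0 = Complex.I
  w0 : w 0 = Real.pi * Complex.I
  e1 : e 1 = 1
  w1 : w 1 = Real.log 2
  e2 : e 2 = 1
  w2 : w 2 = Real.log 3

/-- Package LOGB (100 lines; compare `exists_basis` in `Pool.Agent.Helper58.NL.Base`). -/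
def S_LOGB : Prop := ∃ w e : ℕ → ℂ, LB w e

/-- the pairs (new value, logarithm) -/
noncomputable def PB (s : ℕ → ℝ) (w e : ℕ → ℂ) : Submodule ℚ (ℂ × ℂ) :=
  span ℚ (range fun k => (e k * (s k : ℂ), w k))

/-- Package PB1 (60 lines): the base is a stage, stable under conjugation. -/
def S_PB1 : Prop := ∀ (D : ℕ) (s t : ℕ → ℝ), Seq D s t → ∀ w e : ℕ → ℂ, LB w e →
  SI (PB s w e) (range fun k => (s k : ℂ)) ∧ CS (PB s w e)

/-- Package PB2 (100 lines): rationally independent combinations of the `e k * s k` are algebraically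
independent. -/
def S_PB2 : Prop := ∀ (D : ℕ) (s t : ℕ → ℝ), Seq D s t → ∀ w e : ℕ → ℂ, LB w e →
  ∀ U ≤ PB s w e, FiniteDimensional ℚ U → (finrank ℚ U : ℕ∞) ≤ M.eRk (co U)

/-- Package SCHL (80 lines; compare `Pool.Agent.Helper28.NL.SCH`): Schanuel's inequality in the form used
here, from the rank inequality of `Pool.Agent.Helper56.HS.extS` and `PB2`. -/
def S_SCHL : Prop := ∀ (K : IntermediateField ℚ ℂ) (lam : K →ₗ[ℚ] ℂ) (S : Set ℂ)
  (P0 : Submodule ℚ (ℂ × ℂ)), SI P0 S →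
  (∀ U ≤ P0, FiniteDimensional ℚ U → (finrank ℚ U : ℕ∞) ≤ M.eRk (co U)) →
  (∀ V : Submodule ℚ K, FiniteDimensional ℚ V →
    ∃ I : Finset ℂ, (I : Set ℂ) ⊆ co (V.map (gr lam)) ∧ IndS S I ∧
      finrank ℚ V ≤ I.card + finrank ℚ (V.map (gr lam) ⊓ P0 : Submodule ℚ (ℂ × ℂ))) →
  ∀ (n : ℕ) (z : Fin n → K), LinearIndependent ℚ z →
    ∃ f : Fin n → ℂ, (∀ i, f i ∈ range (fun j => (z j : ℂ)) ∪ range fun j => Complex.exp (lam (z j))) ∧
      AlgebraicIndependent ℚ f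

/-- Package FLD (150 lines, from PB1, PB2, SCHL; model: `field` in `Pool.Agent.Helper56.NL.Fin` and
`models2` in `Pool.Agent.Helper56.NL.Main2`): the field, `extS` with `P0 = P1 = PB s w e`, `N1 = 0`,
`τ = 2 π i`. -/
def S_FLD : Prop := S_PB1 → S_PB2 → S_SCHL → ∀ (D : ℕ) (s t : ℕ → ℝ), Seq D s t →
  ∀ w e : ℕ → ℂ, LB w e → ∃ F : Pool.Agent.Helper56.NL.ExpField, F.p = Real.pi ∧ Schanuel F ∧
    (∀ k, e k * (s k : ℂ) ∈ F.K ∧ F.E (e k * (s k : ℂ)) = Complex.exp (w k)) ∧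
    ∀ u, Pool.Agent.Helper56.NL.IsLog F u → u ∈ span ℚ (range fun k => e k * (s k : ℂ))

/-- Package MEAS (150 lines): the estimate for all independent tuples in the span (substitution of
combinations with coefficients in `ℚ` or `i ℚ`, bounded denominators; the real or imaginary part is an integral polynomial
in `s 0, ..., s (N - 1)` that is not `0`). -/
def S_MEAS : Prop := ∀ (D : ℕ) (s : ℕ → ℝ) (e : ℕ → ℂ), (∀ k, e k = 1 ∨ e k = Complex.I) →
  (∀ N : ℕ, MR D (fun i : Fin N => s i)) → ∀ (n : ℕ) (u : Fin n → ℂ),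
    (∀ i, u i ∈ span ℚ (range fun k => e k * (s k : ℂ))) → LinearIndependent ℚ u →
      ∃ C : ℝ, 0 < C ∧ ∀ H : ℝ, 2 ≤ H → ∀ P : MvPolynomial (Fin n) ℤ, P ≠ 0 →
        P.totalDegree ≤ D → (∀ s, |((P.coeff s : ℤ) : ℝ)| ≤ H) →
          H ^ (-C) ≤ ‖MvPolynomial.aeval u P‖

/-- Package FAIL (50 lines): the estimate fails in degree `D + 1`. -/
def S_FAIL : Prop := ∀ (D : ℕ) (L u : ℝ), Liouville L → u ≠ 0 → ∀ C : ℝ, 0 < C →
  ∃ H : ℝ, 2 ≤ H ∧ ∃ P : MvPolynomial (Fin 2) ℤ, P ≠ 0 ∧ P.totalDegree ≤ D + 1 ∧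
    (∀ s, |((P.coeff s : ℤ) : ℝ)| ≤ H) ∧
    0 < ‖MvPolynomial.aeval ![(u : ℂ), ((L * u ^ (D + 1) : ℝ) : ℂ)] P‖ ∧
    ‖MvPolynomial.aeval ![(u : ℂ), ((L * u ^ (D + 1) : ℝ) : ℂ)] P‖ < H ^ (-C)

/-- The final theorem (helper80). -/
def S_FINAL : Prop := ∀ D : ℕ, ∃ F : Pool.Agent.Helper56.NL.ExpField, F.p = Real.pi ∧ Schanuel F ∧ MeasureInDegree F D ∧
  ∃ u v : ℝ, (u : ℂ) ∈ F.K ∧ (v : ℂ) ∈ F.K ∧ F.E u = 2 ∧ F.E v = 3 ∧
    ∀ C : ℝ, 0 < C → ∃ H : ℝ, 2 ≤ H ∧ ∃ P : MvPolynomial (Fin 2) ℤ, P ≠ 0 ∧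
      P.totalDegree ≤ D + 1 ∧ (∀ s, |((P.coeff s : ℤ) : ℝ)| ≤ H) ∧
      0 < ‖MvPolynomial.aeval ![(u : ℂ), (v : ℂ)] P‖ ∧
      ‖MvPolynomial.aeval ![(u : ℂ), (v : ℂ)] P‖ < H ^ (-C)

end Pool.Agent.Helper80.MM
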